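import Pool.Agent.Helper79.GT.St1

/-!
# Project GT, module BRG: positional superko, the value with situations is the value with boards
-/

set_option autoImplicit false

namespace Pool.Agent.Helper6.GT

open Pool.Agent.Helper19.SK Pool.Agent.Helper79.GS Pool.Agent.Helper79.GT

private theorem mem_sym {P : Type} {V : Set (Bool × P)} (hV : ∀ x, (true, x) ∈ V ↔ (false, x) ∈ V)
    (c : Bool) (x : P) : (c, x) ∈ V ↔ (true, x) ∈ V := by
  cases c
  · exact (hV x).symm
  · exact Iff.rfl

private theorem grS_eq {P : Type} (A : Arena P) (EX : Bool → P → Prop) (V : Set (Bool × P))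
    (hV : ∀ x, (true, x) ∈ V ↔ (false, x) ∈ V) (c : Bool) (X : P → Prop) (u : P) :
    GrS A EX V c X u = Gr A EX {x | (true, x) ∈ V} c X u := by
  funext y x
  simp only [GrS, Gr, mem_sym hV, Set.mem_setOf_eq]

private theorem xkS_eq {P : Type} (A : Arena P) (EX : Bool → P → Prop) (V : Set (Bool × P))
    (hV : ∀ x, (true, x) ∈ V ↔ (false, x) ∈ V) (c : Bool) (k : ℕ) :
    XkS A EX V c k = Xk A EX {x | (true, x) ∈ V} c k := by
  induction k with
  | zero => rfl
  | succ k ih =>
    funext u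
    simp only [XkS, Xk, ih, grS_eq A EX V hV]

private theorem xins_eq {P : Type} (A : Arena P) (EX : Bool → P → Prop) (V : Set (Bool × P))
    (hV : ∀ x, (true, x) ∈ V ↔ (false, x) ∈ V) (c : Bool) (u : P) :
    XINS A EX V c u = XIN A EX {x | (true, x) ∈ V} c u := by
  simp only [XINS, XIN, xkS_eq A EX V hV]

private theorem vis_mem {P : Type} (H₀ : Set (Bool × P)) (c s : Bool) (a b x : P) :
    (s, x) ∈ Vis false H₀ c a b ↔ ((s, x) ∈ H₀ ∨ x = a ∨ x = b) := by
  simp [Vis]

private theorem vis_sym {P : Type} (H₀ : Set (Bool × P)) (h : ∀ x, (true, x) ∈ H₀ ↔ (false, x) ∈ H₀)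
    (c : Bool) (a b : P) (x : P) :
    (true, x) ∈ Vis false H₀ c a b ↔ (false, x) ∈ Vis false H₀ c a b := by
  rw [vis_mem, vis_mem, h]

private theorem vis_set {P : Type} (H₀ : Set (Bool × P)) (c : Bool) (a b : P) :
    {x | (true, x) ∈ Vis false H₀ c a b} = insert b (insert a {x | (true, x) ∈ H₀}) := by
  ext x
  simp only [Set.mem_setOf_eq, vis_mem, Set.mem_insert_iff]
  tauto

private theorem wstS_eq {P : Type} (A : Arena P) (H₀ : Set (Bool × P))
    (h : ∀ x, (true, x) ∈ H₀ ↔ (false, x) ∈ H₀) (EX : Bool → P → Prop) (c : Bool) (b : P) :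
    WstS A false H₀ EX c b = Wst A {x | (true, x) ∈ H₀} EX c b := by
  unfold WstS Wst
  by_cases ha : ahead A c b
  · rw [if_pos ha, if_pos ha]
    have h1 : XINS A EX (Vis false H₀ (!c) b b) (!c) b =
        XIN A EX (insert b {x | (true, x) ∈ H₀}) (!c) b := by
      rw [xins_eq A EX _ (vis_sym H₀ h _ _ _), vis_set, Set.insert_eq_of_mem (Set.mem_insert _ _)]
    have h2 : ∀ w, (rv A c b w ∧ (!c, w) ∉ H₀ ∧ w ≠ b ∧ ¬ XINS A EX (Vis false H₀ (!c) b w) (!c) w) =
        (rv A c b w ∧ w ∉ insert b {x | (true, x) ∈ H₀} ∧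
          ¬ XIN A EX (insert w (insert b {x | (true, x) ∈ H₀})) (!c) w) := by
      intro w
      rw [xins_eq A EX _ (vis_sym H₀ h _ _ _), vis_set]
      apply propext
      rw [mem_sym h (!c) w]
      simp only [Set.mem_insert_iff, Set.mem_setOf_eq]
      tauto
    rw [h1]
    simp only [h2]
  · rw [if_neg ha, if_neg ha, xins_eq A EX _ (vis_sym H₀ h _ _ _), vis_set,
      Set.insert_eq_of_mem (Set.mem_insert _ _)]

private theorem extS_eq {P : Type} (A : Arena P) (H₀ : Set (Bool × P))
    (h : ∀ x, (true, x) ∈ H₀ ↔ (false, x) ∈ H₀) (W : Bool → P → Prop) :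
    extS A H₀ W = ext A {x | (true, x) ∈ H₀} W := by
  funext c u
  simp only [extS, ext, mem_sym h, Set.mem_setOf_eq]

theorem hBRG : StBRG := by
  intro P A H₀ h r
  have key : WNs A false H₀ r = WN A {x | (true, x) ∈ H₀} r := by
    induction r with
    | zero =>
      funext c b
      exact wstS_eq A H₀ h _ c b
    | succ r ih =>
      funext c b
      simp only [WNs, WN]
      rw [ih, extS_eq A H₀ h]
      exact wstS_eq A H₀ h _ c b
  intro c b
  rw [key]

end Pool.Agent.Helper6.GT
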