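import Pool.Agent.Helper76.GT.St

/-!
# Project GT: module REP
-/

set_option autoImplicit false

namespace Pool.Agent.Helper6.GT

open Pool.Agent.Helper76.GT Filter
open scoped Pointwise ENNReal

universe u

section

variable {H : Type u} [Group H]

private def VV (S : Finset H) : Submodule ℝ (H → ℝ) where
  carrier := {f | Harm S f ∧ Lip S f ∧ f 1 = 0}
  add_mem' := by
    rintro f g ⟨h1, ⟨C1, h2⟩, h3⟩ ⟨h4, ⟨C2, h5⟩, h6⟩
    refine ⟨fun x => ?_, ⟨C1 + C2, fun x s hs => ?_⟩, ?_⟩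
    · have e : ∀ s ∈ S, (f + g) (x * s) - (f + g) x = (f (x * s) - f x) + (g (x * s) - g x) := by
        intro s _
        rw [Pi.add_apply, Pi.add_apply]
        ring
      rw [Finset.sum_congr rfl e, Finset.sum_add_distrib, h1 x, h4 x, add_zero]
    · have e : (f + g) (x * s) - (f + g) x = (f (x * s) - f x) + (g (x * s) - g x) := by
        rw [Pi.add_apply, Pi.add_apply]
        ring
      rw [e]
      exact (abs_add_le _ _).trans (add_le_add (h2 x s hs) (h5 x s hs))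
    · rw [Pi.add_apply, h3, h6, add_zero]
  zero_mem' := ⟨fun x => by simp, ⟨0, fun x s _ => by simp⟩, rfl⟩
  smul_mem' := by
    rintro c f ⟨h1, ⟨C1, h2⟩, h3⟩
    refine ⟨fun x => ?_, ⟨|c| * C1, fun x s hs => ?_⟩, ?_⟩
    · have e : ∀ s ∈ S, (c • f) (x * s) - (c • f) x = c * (f (x * s) - f x) := by
        intro s _
        rw [Pi.smul_apply, Pi.smul_apply, smul_eq_mul, smul_eq_mul]
        ring
      rw [Finset.sum_congr rfl e, ← Finset.mul_sum, h1 x, mul_zero]
    · have e : (c • f) (x * s) - (c • f) x = c * (f (x * s) - f x) := by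
        rw [Pi.smul_apply, Pi.smul_apply, smul_eq_mul, smul_eq_mul]
        ring
      rw [e, abs_mul]
      exact mul_le_mul_of_nonneg_left (h2 x s hs) (abs_nonneg c)
    · rw [Pi.smul_apply, h3, smul_zero]

private theorem fd (S : Finset H) (hN : ∃ N₀ : ℕ, ∀ (N : ℕ) (f : Fin N → H → ℝ),
    LinearIndependent ℝ f → (∀ i, Harm S (f i)) → (∀ i, Lip S (f i)) → (∀ i, f i 1 = 0) → N ≤ N₀) :
    FiniteDimensional ℝ (VV S) := by
  obtain ⟨N₀, hN⟩ := hN
  have h1 : Module.rank ℝ (VV S) ≤ N₀ := by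
    apply rank_le
    intro s hs
    have h2 : LinearIndependent ℝ (fun i : Fin s.card => (((s.equivFin.symm i : s) : VV S) : H → ℝ)) := by
      have h3 := (hs.map' (VV S).subtype (Submodule.ker_subtype _)).comp s.equivFin.symm
        s.equivFin.symm.injective
      exact h3
    exact hN s.card _ h2 (fun i => ((s.equivFin.symm i : s) : VV S).2.1)
      (fun i => ((s.equivFin.symm i : s) : VV S).2.2.1) (fun i => ((s.equivFin.symm i : s) : VV S).2.2.2)
  exact Module.rank_lt_aleph0_iff.1 (h1.trans_lt (Cardinal.natCast_lt_aleph0))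

/-- the Banach space of bounded functions -/
private abbrev FF' (S : Finset H) : Type u := lp (fun _ : H × {s // s ∈ S} => ℝ) ∞

/-- the gradient -/
private noncomputable def DD (S : Finset H) : VV S →ₗ[ℝ] FF' S where
  toFun f := ⟨fun p => (f : H → ℝ) (p.1 * p.2) - (f : H → ℝ) p.1, by
    obtain ⟨C, hC⟩ := f.2.2.1
    apply memℓp_infty
    refine ⟨C, ?_⟩
    rintro _ ⟨p, rfl⟩
    exact hC p.1 p.2 p.2.2⟩
  map_add' f g := by
    ext p
    show ((f + g : VV S) : H → ℝ) (p.1 * p.2) - ((f + g : VV S) : H → ℝ) p.1 =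
      ((f : H → ℝ) (p.1 * p.2) - (f : H → ℝ) p.1) + ((g : H → ℝ) (p.1 * p.2) - (g : H → ℝ) p.1)
    rw [Submodule.coe_add, Pi.add_apply, Pi.add_apply]
    ring
  map_smul' c f := by
    ext p
    show ((c • f : VV S) : H → ℝ) (p.1 * p.2) - ((c • f : VV S) : H → ℝ) p.1 =
      c * ((f : H → ℝ) (p.1 * p.2) - (f : H → ℝ) p.1)
    rw [Submodule.coe_smul, Pi.smul_apply, Pi.smul_apply, smul_eq_mul, smul_eq_mul]
    ring

private theorem DD_apply (S : Finset H) (f : VV S) (p : H × {s // s ∈ S}) :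
    (DD S f : ∀ _ : H × {s // s ∈ S}, ℝ) p = (f : H → ℝ) (p.1 * p.2) - (f : H → ℝ) p.1 := rfl

private theorem DD_inj (S : Finset H) (hS : Gen S) (f : VV S) (h : DD S f = 0) : f = 0 := by
  have h1 : ∀ x : H, ∀ s ∈ S, (f : H → ℝ) (x * s) = (f : H → ℝ) x := by
    intro x s hs
    have h2 := DD_apply S f (x, ⟨s, hs⟩)
    rw [h] at h2
    have h3 : (0 : ℝ) = (f : H → ℝ) (x * s) - (f : H → ℝ) x := h2
    linarith
  have h2 : ∀ y ∈ Subgroup.closure (S : Set H), ∀ x : H, (f : H → ℝ) (x * y) = (f : H → ℝ) x := by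
    intro y hy
    induction hy using Subgroup.closure_induction with
    | mem s hs => exact fun x => h1 x s hs
    | one =>
      intro x
      rw [mul_one]
    | mul a b _ _ ha hb =>
      intro x
      rw [← mul_assoc, hb, ha]
    | inv a _ ha =>
      intro x
      have := ha (x * a⁻¹)
      rw [inv_mul_cancel_right] at this
      exact this.symm
  apply Subtype.ext
  funext x
  have h3 := h2 x (by rw [hS.gen]; exact Subgroup.mem_top x) 1
  rw [one_mul, f.2.2.2] at h3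
  exact h3

/-- translation of bounded functions -/
private noncomputable def TT (S : Finset H) (g : H) : FF' S →ₗ[ℝ] FF' S where
  toFun φ := ⟨fun p => φ (g⁻¹ * p.1, p.2), by
    apply memℓp_infty
    obtain ⟨C, hC⟩ := memℓp_infty_iff.1 (lp.memℓp φ)
    refine ⟨C, ?_⟩
    rintro _ ⟨p, rfl⟩
    exact hC ⟨(g⁻¹ * p.1, p.2), rfl⟩⟩
  map_add' φ ψ := by
    ext p
    rfl
  map_smul' c φ := by
    ext p
    rfl

private theorem TT_apply (S : Finset H) (g : H) (φ : FF' S) (p : H × {s // s ∈ S}) :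
    (TT S g φ : ∀ _ : H × {s // s ∈ S}, ℝ) p = φ (g⁻¹ * p.1, p.2) := rfl

private theorem TT_norm (S : Finset H) (g : H) (φ : FF' S) : ‖TT S g φ‖ = ‖φ‖ := by
  rw [lp.norm_eq_ciSup, lp.norm_eq_ciSup]
  exact (Equiv.prodCongr (Equiv.mulLeft g⁻¹) (Equiv.refl _)).iSup_comp (g := fun p => ‖φ p‖)

/-- translation of harmonic functions -/
private def sg (S : Finset H) (g : H) (f : VV S) : VV S :=
  ⟨fun x => (f : H → ℝ) (g⁻¹ * x) - (f : H → ℝ) g⁻¹, by
    obtain ⟨h1, ⟨C, hC⟩, h3⟩ := f.2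
    refine ⟨fun x => ?_, ⟨C, fun x s hs => ?_⟩, ?_⟩
    · have h4 := h1 (g⁻¹ * x)
      rw [← h4]
      apply Finset.sum_congr rfl
      intro s _
      rw [mul_assoc]
      ring
    · have h4 := hC (g⁻¹ * x) s hs
      have h5 : (f : H → ℝ) (g⁻¹ * (x * s)) - (f : H → ℝ) g⁻¹ - ((f : H → ℝ) (g⁻¹ * x) - (f : H → ℝ) g⁻¹) =
          (f : H → ℝ) (g⁻¹ * x * s) - (f : H → ℝ) (g⁻¹ * x) := by
        rw [mul_assoc]
        ring
      rw [h5]
      exact h4
    · show (f : H → ℝ) (g⁻¹ * 1) - (f : H → ℝ) g⁻¹ = 0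
      rw [mul_one, sub_self]⟩

private theorem TT_DD (S : Finset H) (g : H) (f : VV S) : TT S g (DD S f) = DD S (sg S g f) := by
  ext p
  rw [TT_apply, DD_apply, DD_apply]
  show (f : H → ℝ) (g⁻¹ * p.1 * p.2) - (f : H → ℝ) (g⁻¹ * p.1) =
    ((f : H → ℝ) (g⁻¹ * (p.1 * p.2)) - (f : H → ℝ) g⁻¹) - ((f : H → ℝ) (g⁻¹ * p.1) - (f : H → ℝ) g⁻¹)
  rw [mul_assoc]
  ring

private theorem TT_mem (S : Finset H) (g : H) (φ : FF' S) (h : φ ∈ LinearMap.range (DD S)) :
    TT S g φ ∈ LinearMap.range (DD S) := by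
  obtain ⟨f, rfl⟩ := h
  exact ⟨sg S g f, (TT_DD S g f).symm⟩

/-- the action -/
private noncomputable def rr (S : Finset H) (g : H) :
    LinearMap.range (DD S) →L[ℝ] LinearMap.range (DD S) :=
  ((TT S g).restrict (TT_mem S g)).mkContinuous 1 (fun φ => by
    rw [one_mul]
    exact (TT_norm S g φ).le)

private theorem rr_coe (S : Finset H) (g : H) (φ : LinearMap.range (DD S)) :
    ((rr S g φ : LinearMap.range (DD S)) : FF' S) = TT S g φ := rfl

private noncomputable def rho (S : Finset H) :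
    H →* (LinearMap.range (DD S) →L[ℝ] LinearMap.range (DD S)) where
  toFun g := rr S g
  map_one' := by
    ext φ p
    show (TT S 1 φ : ∀ _ : H × {s // s ∈ S}, ℝ) p = φ.1 p
    rw [TT_apply, inv_one, one_mul]
  map_mul' g h := by
    ext φ p
    show (TT S (g * h) φ : ∀ _ : H × {s // s ∈ S}, ℝ) p = (TT S g (TT S h φ) : ∀ _ : H × {s // s ∈ S}, ℝ) p
    rw [TT_apply, TT_apply, TT_apply, mul_inv_rev, mul_assoc]

end

theorem pREP (H : Type u) [Group H] [DecidableEq H] (h1 : ISO H) : REP H := by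
  intro S hS hN
  have hfd : FiniteDimensional ℝ (VV S) := fd S hN
  have hfd2 : FiniteDimensional ℝ (LinearMap.range (DD S)) := inferInstance
  have h2 := h1 (LinearMap.range (DD S)) (rho S) (fun g v => TT_norm S g v)
  refine ⟨_, h2, ?_⟩
  intro g hg f hf1 hf2 hf3 x
  have h3 : rho S g = 1 := sub_eq_zero.1 (norm_eq_zero.1 hg)
  have h4 : rho S g⁻¹ = 1 := by
    have h5 : rho S g⁻¹ * rho S g = 1 := by rw [← map_mul, inv_mul_cancel, map_one]
    rw [h3, mul_one] at h5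
    exact h5
  set f' : VV S := ⟨f, hf1, hf2, hf3⟩ with hf'
  have h5 : DD S (sg S g⁻¹ f') = DD S f' := by
    rw [← TT_DD]
    have h6 := congrArg (fun T : LinearMap.range (DD S) →L[ℝ] LinearMap.range (DD S) =>
      ((T ⟨DD S f', ⟨f', rfl⟩⟩ : LinearMap.range (DD S)) : FF' S)) h4
    exact h6
  have h6 : sg S g⁻¹ f' - f' = 0 := by
    apply DD_inj S hS
    rw [map_sub, h5, sub_self]
  have h7 : (sg S g⁻¹ f' : H → ℝ) x = (f' : H → ℝ) x := by
    rw [sub_eq_zero.1 h6]
  have h8 : f (g⁻¹⁻¹ * x) - f g⁻¹⁻¹ = f x := h7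
  rw [inv_inv] at h8
  linarith

end Pool.Agent.Helper6.GT
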