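import Pool.Agent.Helper79.GT.St6

/-!
# Project GT, module VLV: the word of a placement
-/

set_option autoImplicit false

namespace Pool.Agent.Helper6.GT

open Pool.Agent.Helper19.SK Pool.Agent.Helper73.DC Pool.Agent.Helper79.GS Pool.Agent.Helper79.GT

private theorem lett_left (w v : List (Fin 5)) (i : ℕ) (h : i < w.length) :
    lett (w ++ v) i = lett w i := by
  unfold lett
  rw [List.getElem?_append_left h]

private theorem lett_right (w v : List (Fin 5)) (i : ℕ) (h : w.length ≤ i) :
    lett (w ++ v) i = lett v (i - w.length) := by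
  unfold lett
  rw [List.getElem?_append_right h]

private theorem lett_out (w : List (Fin 5)) (i : ℕ) (h : w.length ≤ i) : lett w i = 0 := by
  unfold lett
  rw [List.getElem?_eq_none h]

private theorem lett_zero (a : Fin 5) (v : List (Fin 5)) : lett (a :: v) 0 = cd a + 1 := rfl

private theorem lett_succ (a : Fin 5) (v : List (Fin 5)) (i : ℕ) :
    lett (a :: v) (i + 1) = lett v i := rfl

private theorem bword_len {n : ℕ} (P : Pos (Fin n × Fin n)) : (bword P).length = n * n := by
  simp [bword]

private theorem lcN_dgt (x : Option Bool) : lcN (dgt x) = cd (ltr x) + 1 := by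
  rcases x with _ | x
  · simp [lcN, dgt, ltr]
  · cases x
    · simp [lcN, dgt, ltr]
    · simp [lcN, dgt, ltr]

private theorem lett_bword (hCOD : StCOD) {n : ℕ} (P : Pos (Fin n × Fin n)) (p : ℕ)
    (h : p < n * n) : lett (bword P) p = lcN (dg 3 (codeB P) p) := by
  have h1 := ((hCOD n).1 P).2 ⟨p, h⟩
  have h2 : (bword P)[p]? = some (ltr (P (finProdFinEquiv.symm ⟨p, h⟩))) := by
    unfold bword
    rw [List.getElem?_ofFn]
    simp [h]
  have h3 : lett (bword P) p = cd (ltr (P (finProdFinEquiv.symm ⟨p, h⟩))) + 1 := by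
    unfold lett
    rw [h2]
  rw [h3, ← lcN_dgt, ← h1]

theorem hVLV (hCOD : StCOD) : StVLV := by
  intro n w hn c P Q
  have hP := bword_len P
  have hQ := bword_len Q
  refine ⟨by simp only [List.length_append, List.length_cons, hP, hQ]; ring, ?_⟩
  funext i
  unfold vlt
  rw [hn]
  by_cases h1 : i < w.length
  · rw [if_pos h1, lett_left _ _ _ h1]
  rw [if_neg h1, lett_right _ _ _ (not_lt.1 h1)]
  by_cases h2 : i = w.length
  · rw [if_pos h2, h2, Nat.sub_self, lett_zero]
    cases c
    · simp [bn, ltr]
    · simp [bn, ltr]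
  rw [if_neg h2]
  obtain ⟨j, hj⟩ : ∃ j, i = w.length + 1 + j := ⟨i - w.length - 1, by omega⟩
  have e1 : i - w.length = j + 1 := by omega
  have e2 : j + 1 - 1 = j := by omega
  rw [e1, lett_succ, e2]
  by_cases h3 : j < n * n
  · rw [if_pos (by omega), lett_left _ _ _ (by rw [hP]; exact h3), lett_bword hCOD P j h3]
  rw [if_neg (by omega), lett_right _ _ _ (by rw [hP]; omega), hP]
  by_cases h4 : j < 2 * (n * n)
  · rw [if_pos (by omega), lett_bword hCOD Q (j - n * n) (by omega)]
  · rw [if_neg (by omega), lett_out _ _ (by rw [hQ]; omega)]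

end Pool.Agent.Helper6.GT
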